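import Pool.Agent.X240.BB.Final

/-!
# MP_eb515b_lc, Q2: a local problem on the shift graph of `ℤ^d` with a Baire measurable solution
and without Borel solution

The graph is the unlabelled graph on the free part of `2^{ℤ^d}`; a locally checkable labelling
problem does not see the directions of the edges.  The problem asks for a labelling by a colour, a
table of the colours of the neighbours in the nominal directions, and a label of a known problem for
`ℤ²`-actions which has solutions on comeagre sets for free Borel actions but no measurable solution
for measure preserving actions with an ergodic generator.  The balls of radius `6` of good labellings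
of the grid are allowed.  Rigidity of the balls of the grid shows that in any solution the nominal
directions are constant along the orbits, and differ from the true ones by a signed permutation.
-/

set_option autoImplicit false

namespace Pool.Agent.Results.MP_eb515b_lc.BaireNotBorelShiftGraph

open Pool.Agent.X240.BB MeasureTheory

/-- The sigma algebra and the topology on the free part `X` of `2^{ℤ^d}` which are used in `result`
are the restrictions of the product sigma algebra and of the product topology, and the measurable
sets are the Borel sets. -/
theorem borel_free (d : ℕ) : BorelSpace (FreePart d) := inferInstance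

/-- For every `d ≥ 2` there is a locally checkable labelling problem `Q` such that the shift graph of
`ℤ^d` on the free part `X` of `2^{ℤ^d}`

* has a Borel solution of `Q` on some invariant comeagre Borel subset of `X`;
* has no Borel solution of `Q` on `X`;
* has for some Borel probability measure `μ` on `X` no Borel solution of `Q` on any invariant
  Borel subset of `X` of full measure. -/
theorem result (d : ℕ) (hd : 2 ≤ d) : ∃ Q : LCL,
    (∃ G : Set (FreePart d), MeasurableSet G ∧ (∀ g, ∀ x ∈ G, act g x ∈ G) ∧
      G ∈ residual (FreePart d) ∧
      ∃ f : G → Q.Lab, (∀ l, MeasurableSet (f ⁻¹' {l})) ∧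
        Q.IsSol ((shiftGraph d).induce G) f) ∧
    (¬ ∃ f : FreePart d → Q.Lab, (∀ l, MeasurableSet (f ⁻¹' {l})) ∧ Q.IsSol (shiftGraph d) f) ∧
    ∃ μ : Measure (FreePart d), IsProbabilityMeasure μ ∧
      ¬ ∃ G : Set (FreePart d), MeasurableSet G ∧ (∀ g, ∀ x ∈ G, act g x ∈ G) ∧ μ Gᶜ = 0 ∧
        ∃ f : G → Q.Lab, (∀ l, MeasurableSet (f ⁻¹' {l})) ∧
          Q.IsSol ((shiftGraph d).induce G) f :=
  main d hd

end Pool.Agent.Results.MP_eb515b_lc.BaireNotBorelShiftGraph
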